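import Pool.Agent.H97.NR.Stmts

/-!
General lemmas on the operation `Dd` (project NR) and the module FIL.
-/

namespace Pool.NR

universe u

namespace FIL

variable {p : ℕ} {R : Type u} [NonUnitalRing R]

/-- ideals as a property of additive subgroups -/
def Idl (S : AddSubgroup R) : Prop := ∀ s ∈ S, ∀ r : R, r * s ∈ S ∧ s * r ∈ S

theorem idl_top : Idl (⊤ : AddSubgroup R) := fun _ _ _ => ⟨trivial, trivial⟩

theorem dd_smul {S : AddSubgroup R} {s : R} (hs : s ∈ S) : p • s ∈ Dd p S :=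
  AddSubgroup.subset_closure ⟨s, hs, Or.inl rfl⟩

theorem dd_zsmul {S : AddSubgroup R} {s : R} (hs : s ∈ S) : (p : ℤ) • s ∈ Dd p S := by
  rw [natCast_zsmul]; exact dd_smul hs

theorem dd_mul {S : AddSubgroup R} {s : R} (hs : s ∈ S) (r : R) : r * s ∈ Dd p S :=
  AddSubgroup.subset_closure ⟨s, hs, Or.inr ⟨r, Or.inl rfl⟩⟩

theorem dd_mul' {S : AddSubgroup R} {s : R} (hs : s ∈ S) (r : R) : s * r ∈ Dd p S :=
  AddSubgroup.subset_closure ⟨s, hs, Or.inr ⟨r, Or.inr rfl⟩⟩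

theorem dd_le {S T : AddSubgroup R} (h : ∀ s ∈ S, p • s ∈ T ∧ ∀ r : R, r * s ∈ T ∧ s * r ∈ T) :
    Dd p S ≤ T := by
  refine (AddSubgroup.closure_le _).2 ?_
  rintro x ⟨s, hs, rfl | ⟨r, rfl | rfl⟩⟩
  · exact (h s hs).1
  · exact ((h s hs).2 r).1
  · exact ((h s hs).2 r).2

theorem dd_mono {S T : AddSubgroup R} (h : S ≤ T) : Dd p S ≤ Dd p T :=
  dd_le fun _ hs => ⟨dd_smul (h hs), fun r => ⟨dd_mul (h hs) r, dd_mul' (h hs) r⟩⟩

theorem dd_le_self {S : AddSubgroup R} (h : Idl S) : Dd p S ≤ S :=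
  dd_le fun s hs => ⟨S.nsmul_mem hs p, fun r => h s hs r⟩

theorem dd_idl {S : AddSubgroup R} (h : Idl S) : Idl (Dd p S) := by
  intro x hx r
  refine AddSubgroup.closure_induction
    (p := fun x _ => r * x ∈ Dd p S ∧ x * r ∈ Dd p S) ?_ ?_ ?_ ?_ hx
  · rintro x ⟨s, hs, rfl | ⟨r', rfl | rfl⟩⟩
    · rw [mul_smul_comm, smul_mul_assoc]
      exact ⟨dd_smul (h s hs r).1, dd_smul (h s hs r).2⟩
    · rw [← mul_assoc, mul_assoc r' s r]
      exact ⟨dd_mul hs _, dd_mul (h s hs r).2 _⟩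
    · rw [← mul_assoc, mul_assoc s r' r]
      exact ⟨dd_mul' (h s hs r).1 _, dd_mul' hs _⟩
  · simp [AddSubgroup.zero_mem]
  · intro x y _ _ hx hy
    rw [mul_add, add_mul]
    exact ⟨add_mem hx.1 hy.1, add_mem hx.2 hy.2⟩
  · intro x _ hx
    rw [mul_neg, neg_mul]
    exact ⟨neg_mem hx.1, neg_mem hx.2⟩

/-- products with at least `j + 1` factors -/
def Pr (R : Type u) [NonUnitalRing R] (j : ℕ) : Set R :=
  {y | ∃ (x : R) (l : List R), j ≤ l.length ∧ y = l.foldl (· * ·) x}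

theorem foldl_mul (r : R) (l : List R) : ∀ x : R,
    r * l.foldl (· * ·) x = l.foldl (· * ·) (r * x) := by
  induction l with
  | nil => intro x; rfl
  | cons a l ih => intro x; simp only [List.foldl_cons]; rw [ih, mul_assoc]

theorem pr_mul {j : ℕ} {y : R} (hy : y ∈ Pr R j) (r : R) : r * y ∈ Pr R (j + 1) := by
  obtain ⟨x, l, hl, rfl⟩ := hy
  refine ⟨r, x :: l, by simpa using hl, ?_⟩
  rw [foldl_mul]; rfl

theorem pr_mul' {j : ℕ} {y : R} (hy : y ∈ Pr R j) (r : R) : y * r ∈ Pr R (j + 1) := by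
  obtain ⟨x, l, hl, rfl⟩ := hy
  refine ⟨x, l ++ [r], by simpa using hl, ?_⟩
  simp [List.foldl_append]

/-- the filtration by `p ^ i * (products of j + 1 factors)`, `i + j ≥ m` -/
def Gf (p : ℕ) (R : Type u) [NonUnitalRing R] (m : ℕ) : AddSubgroup R :=
  AddSubgroup.closure {z | ∃ (i j : ℕ) (y : R), m ≤ i + j ∧ y ∈ Pr R j ∧ z = p ^ i • y}

theorem gf_zero : Gf p R 0 = ⊤ := by
  rw [eq_top_iff]
  intro x _
  exact AddSubgroup.subset_closure ⟨0, 0, x, le_refl _, ⟨x, [], le_refl _, rfl⟩, by simp⟩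

theorem dd_gf (m : ℕ) : Dd p (Gf p R m) ≤ Gf p R (m + 1) := by
  refine dd_le fun s hs => ?_
  refine AddSubgroup.closure_induction
    (p := fun s _ => p • s ∈ Gf p R (m + 1) ∧ ∀ r : R, r * s ∈ Gf p R (m + 1) ∧
      s * r ∈ Gf p R (m + 1)) ?_ ?_ ?_ ?_ hs
  · rintro s ⟨i, j, y, hij, hy, rfl⟩
    refine ⟨AddSubgroup.subset_closure ⟨i + 1, j, y, by omega, hy, ?_⟩, fun r => ⟨?_, ?_⟩⟩
    · rw [smul_smul, ← pow_succ']
    · rw [mul_smul_comm]
      exact AddSubgroup.subset_closure ⟨i, j + 1, _, by omega, pr_mul hy r, rfl⟩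
    · rw [smul_mul_assoc]
      exact AddSubgroup.subset_closure ⟨i, j + 1, _, by omega, pr_mul' hy r, rfl⟩
  · simp [AddSubgroup.zero_mem]
  · intro x y _ _ hx hy
    refine ⟨?_, fun r => ⟨?_, ?_⟩⟩
    · rw [smul_add]; exact add_mem hx.1 hy.1
    · rw [mul_add]; exact add_mem (hx.2 r).1 (hy.2 r).1
    · rw [add_mul]; exact add_mem (hx.2 r).2 (hy.2 r).2
  · intro x _ hx
    refine ⟨?_, fun r => ⟨?_, ?_⟩⟩
    · rw [smul_neg]; exact neg_mem hx.1
    · rw [mul_neg]; exact neg_mem (hx.2 r).1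
    · rw [neg_mul]; exact neg_mem (hx.2 r).2

theorem pow_four_smul (hc : Nat.card R = p ^ 4) (x : R) : p ^ 4 • x = 0 := by
  have h := card_nsmul_eq_zero' (G := R) (x := x)
  rwa [hc] at h

theorem gf_bot (hc : Nat.card R = p ^ 4) (hn : IsNilp R) : ∃ m, Gf p R m = ⊥ := by
  obtain ⟨n, hn⟩ := hn
  refine ⟨n + 4, ?_⟩
  rw [eq_bot_iff]
  refine (AddSubgroup.closure_le _).2 ?_
  rintro z ⟨i, j, y, hij, ⟨x, l, hl, rfl⟩, rfl⟩
  show _ ∈ (⊥ : AddSubgroup R)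
  rw [AddSubgroup.mem_bot]
  by_cases hj : n ≤ j
  · rw [hn x l (by omega), smul_zero]
  · obtain ⟨k, rfl⟩ : ∃ k, i = k + 4 := ⟨i - 4, by omega⟩
    rw [pow_add, mul_comm, mul_comm, mul_smul, pow_four_smul hc, smul_zero]

theorem dd_ne (hc : Nat.card R = p ^ 4) (hn : IsNilp R) {S : AddSubgroup R} (hS : S ≠ ⊥) :
    Dd p S ≠ S := by
  intro h
  obtain ⟨m, hm⟩ := gf_bot hc hn
  have key : ∀ k, S ≤ Gf p R k := by
    intro k
    induction k with
    | zero => rw [gf_zero]; exact le_top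
    | succ k ih => exact h ▸ (dd_mono ih).trans (dd_gf k)
  exact hS (eq_bot_iff.2 (hm ▸ key m))

end FIL

theorem fil : FILStmt.{u} := by
  intro p _ R _ hc hn S hS
  exact ⟨FIL.dd_le_self hS, fun h => FIL.dd_ne hc hn h, FIL.dd_idl hS⟩

end Pool.NR
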