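import Pool.Agent.H64.NR.Fil

/-!
General lemmas (project NR): orders of subgroups, lifting of generators, generation of `Dd S`.
-/

namespace Pool.NR

universe u

namespace FIL

variable {p : ℕ} {R : Type u} [NonUnitalRing R]

omit [NonUnitalRing R] in
theorem finite_of_card [Fact p.Prime] (hc : Nat.card R = p ^ 4) : Finite R := by
  apply Nat.finite_of_card_ne_zero
  rw [hc]
  exact pow_ne_zero _ (Fact.out : p.Prime).ne_zero

theorem card_sub [hp : Fact p.Prime] (hc : Nat.card R = p ^ 4) (S : AddSubgroup R) :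
    ∃ k, k ≤ 4 ∧ Nat.card S = p ^ k := by
  have h : Nat.card S ∣ p ^ 4 := hc ▸ AddSubgroup.card_addSubgroup_dvd_card S
  obtain ⟨k, hk, h⟩ := (Nat.dvd_prime_pow hp.out).1 h
  exact ⟨k, hk, h⟩

theorem card_dd_lt [hp : Fact p.Prime] (hc : Nat.card R = p ^ 4) (hn : IsNilp R)
    {S : AddSubgroup R} (hS : Idl S) {k : ℕ} (hk : Nat.card S = p ^ (k + 1)) :
    ∃ j, j ≤ k ∧ Nat.card (Dd p S) = p ^ j := by
  have hfin := finite_of_card hc
  have h1 : Dd p S ≤ S := dd_le_self hS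
  have h2 : Nat.card (Dd p S) ∣ Nat.card S := AddSubgroup.card_dvd_of_le h1
  rw [hk] at h2
  obtain ⟨j, hj, h⟩ := (Nat.dvd_prime_pow hp.out).1 h2
  refine ⟨j, ?_, h⟩
  by_contra hjk
  have hj' : j = k + 1 := by omega
  subst hj'
  have hne : S ≠ ⊥ := by
    rintro rfl
    rw [AddSubgroup.card_bot] at hk
    have := Nat.one_lt_pow (n := k + 1) (by omega) hp.out.one_lt
    omega
  refine dd_ne hc hn hne ?_
  exact AddSubgroup.eq_of_le_of_card_ge h1 (by rw [hk, h])

theorem dd_bot_of_card [hp : Fact p.Prime] (hc : Nat.card R = p ^ 4) (hn : IsNilp R)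
    {S : AddSubgroup R} (hS : Idl S) (hk : Nat.card S = p ∨ Nat.card S = 1) : Dd p S = ⊥ := by
  have hfin := finite_of_card hc
  rcases hk with hk | hk
  · obtain ⟨j, hj, h⟩ := card_dd_lt hc hn hS (k := 0) (by simpa using hk)
    have : j = 0 := by omega
    subst this
    exact AddSubgroup.eq_bot_of_card_eq _ (by simpa using h)
  · have h0 : S = ⊥ := AddSubgroup.eq_bot_of_card_eq _ hk
    rw [eq_bot_iff]
    exact (dd_le_self hS).trans (by rw [h0])

/-- generators of an elementary abelian group -/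
theorem exists_gens [hp : Fact p.Prime] {Q : Type*} [AddCommGroup Q] [Finite Q]
    (hpQ : ∀ x : Q, p • x = 0) {k : ℕ} (hc : Nat.card Q = p ^ k) :
    ∃ b : Fin k → Q, ∀ x, ∃ a : Fin k → ZMod p, x = ∑ i, (a i).val • b i := by
  have ⟨_⟩ : Nonempty (Module (ZMod p) Q) := ⟨AddCommGroup.zmodModule hpQ⟩
  have _ : Module.Finite (ZMod p) Q := inferInstance
  have hfr : Module.finrank (ZMod p) Q = k := by
    have h := Module.natCard_eq_pow_finrank (K := ZMod p) (V := Q)
    rw [hc, Nat.card_zmod] at h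
    exact (Nat.pow_right_injective hp.out.two_le h).symm
  let b := Module.finBasisOfFinrankEq (ZMod p) Q hfr
  refine ⟨b, fun x => ⟨fun i => b.repr x i, ?_⟩⟩
  conv_lhs => rw [← b.sum_repr x]
  refine Finset.sum_congr rfl fun i _ => ?_
  rw [← Nat.cast_smul_eq_nsmul (ZMod p), ZMod.natCast_zmod_val]

/-- lifting of generators of an elementary abelian section -/
theorem linN [hp : Fact p.Prime] [Finite R] {S T : AddSubgroup R} (hTS : T ≤ S) {k : ℕ}
    (hc : Nat.card S = p ^ k * Nat.card T) (hpS : ∀ s ∈ S, p • s ∈ T) :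
    ∃ g : Fin k → R, (∀ i, g i ∈ S) ∧
      ∀ s ∈ S, ∃ a : Fin k → ZMod p, s - ∑ i, (a i).val • g i ∈ T := by
  classical
  set T' := T.addSubgroupOf S with hT'
  have hcT : Nat.card T' = Nat.card T :=
    Nat.card_congr (AddSubgroup.addSubgroupOfEquivOfLe hTS).toEquiv
  have hcQ : Nat.card (S ⧸ T') = p ^ k := by
    have h := AddSubgroup.card_eq_card_quotient_mul_card_addSubgroup T'
    rw [hc, hcT] at h
    exact (Nat.eq_of_mul_eq_mul_right Nat.card_pos h).symm
  have hpQ : ∀ x : S ⧸ T', p • x = 0 := by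
    intro x
    induction x using QuotientAddGroup.induction_on with
    | H x =>
      rw [← QuotientAddGroup.mk_nsmul, QuotientAddGroup.eq_zero_iff]
      exact hpS x.1 x.2
  obtain ⟨b, hb⟩ := exists_gens hpQ hcQ
  choose f hf using fun i : Fin k => QuotientAddGroup.mk_surjective (b i)
  refine ⟨fun i => (f i : R), fun i => (f i).2, fun s hs => ?_⟩
  obtain ⟨a, ha⟩ := hb (QuotientAddGroup.mk (⟨s, hs⟩ : S))
  refine ⟨a, ?_⟩
  have key : (QuotientAddGroup.mk ((⟨s, hs⟩ : S) - ∑ i, (a i).val • f i) : S ⧸ T') = 0 := by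
    rw [QuotientAddGroup.mk_sub, QuotientAddGroup.mk_sum, sub_eq_zero, ha]
    refine Finset.sum_congr rfl fun i _ => ?_
    rw [QuotientAddGroup.mk_nsmul, hf]
  rw [QuotientAddGroup.eq_zero_iff] at key
  have h2 := AddSubgroup.mem_addSubgroupOf.1 key
  simpa using h2

/-- the section `S / T` of prime order is generated by any element of `S` outside `T` -/
theorem lin1 [hp : Fact p.Prime] [Finite R] {S T : AddSubgroup R} (hTS : T ≤ S)
    (hc : Nat.card S = p * Nat.card T) {x : R} (hx : x ∈ S) (hxT : x ∉ T) :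
    ∀ s ∈ S, ∃ a : ZMod p, s - a.val • x ∈ T := by
  classical
  have hpS : ∀ s ∈ S, p • s ∈ T := by
    set T' := T.addSubgroupOf S with hT'
    have hcT : Nat.card T' = Nat.card T :=
      Nat.card_congr (AddSubgroup.addSubgroupOfEquivOfLe hTS).toEquiv
    have hcQ : Nat.card (S ⧸ T') = p := by
      have h := AddSubgroup.card_eq_card_quotient_mul_card_addSubgroup T'
      rw [hc, hcT] at h
      exact (Nat.eq_of_mul_eq_mul_right Nat.card_pos h).symm
    intro s hs
    have h := card_nsmul_eq_zero' (G := S ⧸ T') (x := QuotientAddGroup.mk (⟨s, hs⟩ : S))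
    rw [hcQ, ← QuotientAddGroup.mk_nsmul, QuotientAddGroup.eq_zero_iff] at h
    exact h
  obtain ⟨g, hg, h⟩ := linN (k := 1) hTS (by simpa using hc) hpS
  obtain ⟨c, hcx⟩ := h x hx
  simp only [Fin.sum_univ_one] at hcx h
  have hc0 : c 0 ≠ 0 := by
    intro h0
    rw [h0] at hcx
    simp at hcx
    exact hxT hcx
  intro s hs
  obtain ⟨a, ha⟩ := h s hs
  refine ⟨a 0 * (c 0)⁻¹, ?_⟩
  have e1 : s - (a 0 * (c 0)⁻¹).val • x = (s - (a 0).val • g 0)
      - (a 0 * (c 0)⁻¹).val • (x - (c 0).val • g 0)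
      + (((a 0).val : ℤ) - (a 0 * (c 0)⁻¹).val * (c 0).val) • g 0 := by
    rw [sub_smul, mul_smul, smul_sub]
    simp only [natCast_zsmul]
    abel
  rw [e1]
  refine add_mem (sub_mem ha (T.nsmul_mem hcx _)) ?_
  have hdvd : (p : ℤ) ∣ ((a 0).val : ℤ) - (a 0 * (c 0)⁻¹).val * (c 0).val := by
    rw [← ZMod.intCast_zmod_eq_zero_iff_dvd]
    push_cast
    simp only [ZMod.natCast_zmod_val]
    rw [mul_assoc, inv_mul_cancel₀ hc0, mul_one, sub_self]
  obtain ⟨m, hm⟩ := hdvd
  rw [hm, mul_comm, mul_smul]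
  refine T.zsmul_mem ?_ _
  rw [natCast_zsmul]
  exact hpS _ (hg 0)

/-- reduction of an integer coefficient modulo `p` -/
theorem red [hp : Fact p.Prime] {T : AddSubgroup R} {x s : R} (hx : p • x ∈ T)
    (h : ∃ n : ℤ, s - n • x ∈ T) : ∃ a : ZMod p, s - a.val • x ∈ T := by
  obtain ⟨n, hn⟩ := h
  refine ⟨(n : ZMod p), ?_⟩
  have hdvd : (p : ℤ) ∣ n - ((n : ZMod p).val : ℤ) := by
    rw [← ZMod.intCast_zmod_eq_zero_iff_dvd]
    push_cast
    simp
  obtain ⟨m, hm⟩ := hdvd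
  have e1 : s - (n : ZMod p).val • x = (s - n • x) + (n - ((n : ZMod p).val : ℤ)) • x := by
    rw [sub_smul, natCast_zsmul]; abel
  rw [e1, hm, mul_comm, mul_smul]
  refine add_mem hn (T.zsmul_mem ?_ _)
  rw [natCast_zsmul]
  exact hx

/-- generation of `Dd S` modulo `Dd (Dd S)` -/
theorem gen {S : AddSubgroup R} {X Y : Set R}
    (hX : (⊤ : AddSubgroup R) ≤ AddSubgroup.closure X ⊔ Dd p ⊤)
    (hY : S ≤ AddSubgroup.closure Y ⊔ Dd p S) :
    Dd p S ≤ AddSubgroup.closure {z | ∃ y ∈ Y, z = p • y ∨ ∃ x ∈ X, z = x * y ∨ z = y * x} ⊔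
      Dd p (Dd p S) := by
  set C := AddSubgroup.closure {z | ∃ y ∈ Y, z = p • y ∨ ∃ x ∈ X, z = x * y ∨ z = y * x} with hC
  have top_mul : ∀ b ∈ Dd p (⊤ : AddSubgroup R), ∀ s ∈ S,
      b * s ∈ Dd p (Dd p S) ∧ s * b ∈ Dd p (Dd p S) := by
    intro b hb s hs
    refine AddSubgroup.closure_induction
      (p := fun b _ => b * s ∈ Dd p (Dd p S) ∧ s * b ∈ Dd p (Dd p S)) ?_ ?_ ?_ ?_ hb
    · rintro b ⟨t, -, rfl | ⟨r, rfl | rfl⟩⟩
      · rw [smul_mul_assoc, mul_smul_comm]
        exact ⟨dd_smul (dd_mul hs _), dd_smul (dd_mul' hs _)⟩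
      · exact ⟨by rw [mul_assoc]; exact dd_mul (dd_mul hs _) _,
          by rw [← mul_assoc]; exact dd_mul' (dd_mul' hs _) _⟩
      · exact ⟨by rw [mul_assoc]; exact dd_mul (dd_mul hs _) _,
          by rw [← mul_assoc]; exact dd_mul' (dd_mul' hs _) _⟩
    · simp
    · intro x y _ _ hx hy
      rw [mul_add, add_mul]
      exact ⟨add_mem hx.1 hy.1, add_mem hx.2 hy.2⟩
    · intro x _ hx
      rw [mul_neg, neg_mul]
      exact ⟨neg_mem hx.1, neg_mem hx.2⟩
  have cl_mul : ∀ a ∈ AddSubgroup.closure X, ∀ y ∈ AddSubgroup.closure Y,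
      a * y ∈ C ∧ y * a ∈ C := by
    intro a ha y hy
    refine AddSubgroup.closure_induction
      (p := fun a _ => a * y ∈ C ∧ y * a ∈ C) ?_ ?_ ?_ ?_ ha
    · intro x hx
      refine AddSubgroup.closure_induction
        (p := fun y _ => x * y ∈ C ∧ y * x ∈ C) ?_ ?_ ?_ ?_ hy
      · intro y hy
        exact ⟨AddSubgroup.subset_closure ⟨y, hy, Or.inr ⟨x, hx, Or.inl rfl⟩⟩,
          AddSubgroup.subset_closure ⟨y, hy, Or.inr ⟨x, hx, Or.inr rfl⟩⟩⟩
      · simp
      · intro x y _ _ hx hy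
        rw [mul_add, add_mul]
        exact ⟨add_mem hx.1 hy.1, add_mem hx.2 hy.2⟩
      · intro x _ hx
        rw [mul_neg, neg_mul]
        exact ⟨neg_mem hx.1, neg_mem hx.2⟩
    · simp
    · intro x y _ _ hx hy
      rw [mul_add, add_mul]
      exact ⟨add_mem hx.1 hy.1, add_mem hx.2 hy.2⟩
    · intro x _ hx
      rw [mul_neg, neg_mul]
      exact ⟨neg_mem hx.1, neg_mem hx.2⟩
  have cl_smul : ∀ y ∈ AddSubgroup.closure Y, p • y ∈ C := by
    intro y hy
    refine AddSubgroup.closure_induction (p := fun y _ => p • y ∈ C) ?_ ?_ ?_ ?_ hy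
    · intro y hy
      exact AddSubgroup.subset_closure ⟨y, hy, Or.inl rfl⟩
    · simp
    · intro x y _ _ hx hy
      rw [smul_add]; exact add_mem hx hy
    · intro x _ hx
      rw [smul_neg]; exact neg_mem hx
  refine dd_le fun s hs => ?_
  obtain ⟨c, hc, d, hd, rfl⟩ := AddSubgroup.mem_sup.1 (hY hs)
  refine ⟨?_, fun r => ?_⟩
  · rw [smul_add]
    exact add_mem (AddSubgroup.mem_sup_left (cl_smul c hc)) (AddSubgroup.mem_sup_right (dd_smul hd))
  · obtain ⟨a, ha, b, hb, rfl⟩ := AddSubgroup.mem_sup.1 (hX (AddSubgroup.mem_top r))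
    have h1 := top_mul b hb _ hs
    have h2 := cl_mul a ha c hc
    constructor
    · rw [add_mul, mul_add a c d]
      exact add_mem (add_mem (AddSubgroup.mem_sup_left h2.1)
        (AddSubgroup.mem_sup_right (dd_mul hd _))) (AddSubgroup.mem_sup_right h1.1)
    · rw [mul_add (c + d) a b, add_mul c d a]
      exact add_mem (add_mem (AddSubgroup.mem_sup_left h2.2)
        (AddSubgroup.mem_sup_right (dd_mul' hd _))) (AddSubgroup.mem_sup_right h1.2)

end FIL

end Pool.NR
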