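import Pool.Agent.H64.NR.Gen

/-!
Project NR: module X31.
-/

namespace Pool.NR

universe u

theorem x31 (_h1 : FILStmt.{u}) : X31Stmt.{u} := by
  intro p hp R _ hc hn hcase
  have hfin := FIL.finite_of_card (p := p) hc
  have hp2 := hp.out.two_le
  have i1 := FIL.dd_idl (p := p) (FIL.idl_top (R := R))
  have ct : Nat.card (⊤ : AddSubgroup R) = p ^ (3 + 1) := by rw [AddSubgroup.card_top, hc]
  have hb : Dd p (Dd p (⊤ : AddSubgroup R)) = ⊥ := FIL.dd_bot_of_card hc hn i1 hcase.symm
  have hps : ∀ s ∈ (⊤ : AddSubgroup R), p • s ∈ Dd p (⊤ : AddSubgroup R) :=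
    fun s hs => FIL.dd_smul hs
  rcases hcase with h | h
  · have hb1 : Dd p (⊤ : AddSubgroup R) = ⊥ := AddSubgroup.eq_bot_of_card_eq _ h
    obtain ⟨g, -, hg⟩ := FIL.linN (k := 4) (le_top : Dd p (⊤ : AddSubgroup R) ≤ ⊤)
      (by rw [ct, h]; ring) hps
    refine ⟨0, 0, g, ?_, ?_, ?_⟩
    · rw [eq_top_iff]
      intro s hs
      obtain ⟨a, ha⟩ := hg s hs
      rw [hb1, AddSubgroup.mem_bot, sub_eq_zero] at ha
      rw [ha]
      exact sum_mem fun i _ => (AddSubgroup.closure _).nsmul_mem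
        (AddSubgroup.subset_closure (Set.mem_range_self i)) _
    · intro i
      have h1 := hps (g i) (AddSubgroup.mem_top _)
      rw [hb1, AddSubgroup.mem_bot] at h1
      rw [h1]
      fin_cases i <;> simp [tab31, Fin.sum_univ_four]
    · intro i j
      have h1 : g i * g j ∈ Dd p (⊤ : AddSubgroup R) := FIL.dd_mul (AddSubgroup.mem_top _) _
      rw [hb1, AddSubgroup.mem_bot] at h1
      rw [h1]
      fin_cases i <;> fin_cases j <;> simp [tab31, Fin.sum_univ_four]
  · obtain ⟨g, -, hg⟩ := FIL.linN (k := 3) (le_top : Dd p (⊤ : AddSubgroup R) ≤ ⊤)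
      (by rw [ct, h]; ring) hps
    have hne : Dd p (⊤ : AddSubgroup R) ≠ ⊥ := by
      intro h0
      rw [h0, AddSubgroup.card_bot] at h
      omega
    obtain ⟨⟨z, hz⟩, hz0'⟩ := AddSubgroup.ne_bot_iff_exists_ne_zero.1 hne
    have hz0 : z ≠ 0 := fun h => hz0' (Subtype.ext h)
    have l1 := FIL.lin1 (bot_le : (⊥ : AddSubgroup R) ≤ Dd p ⊤)
      (by rw [AddSubgroup.card_bot, h, mul_one]) hz (by rwa [AddSubgroup.mem_bot])
    simp only [AddSubgroup.mem_bot, sub_eq_zero] at l1
    have hzp : p • z = 0 := by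
      have : p • z ∈ Dd p (Dd p (⊤ : AddSubgroup R)) := FIL.dd_smul hz
      rwa [hb, AddSubgroup.mem_bot] at this
    have hzr : ∀ r : R, r * z = 0 ∧ z * r = 0 := by
      intro r
      have h1 : r * z ∈ Dd p (Dd p (⊤ : AddSubgroup R)) := FIL.dd_mul hz r
      have h2 : z * r ∈ Dd p (Dd p (⊤ : AddSubgroup R)) := FIL.dd_mul' hz r
      rw [hb, AddSubgroup.mem_bot] at h1 h2
      exact ⟨h1, h2⟩
    choose π hπ using fun i => l1 (p • g i) (hps _ (AddSubgroup.mem_top _))
    choose B hB using fun i j => l1 (g i * g j) (FIL.dd_mul (AddSubgroup.mem_top _) _)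
    refine ⟨π, B, ![g 0, g 1, g 2, z], ?_, ?_, ?_⟩
    · rw [eq_top_iff]
      intro s hs
      obtain ⟨a, ha⟩ := hg s hs
      obtain ⟨b, hb'⟩ := l1 _ ha
      rw [sub_eq_iff_eq_add] at hb'
      rw [hb']
      refine add_mem ?_ ?_
      · exact (AddSubgroup.closure _).nsmul_mem (AddSubgroup.subset_closure (Set.mem_range_self (3 : Fin 4))) _
      · rw [Fin.sum_univ_three]
        refine add_mem (add_mem ?_ ?_) ?_
        · exact (AddSubgroup.closure _).nsmul_mem (AddSubgroup.subset_closure (Set.mem_range_self (0 : Fin 4))) _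
        · exact (AddSubgroup.closure _).nsmul_mem (AddSubgroup.subset_closure (Set.mem_range_self (1 : Fin 4))) _
        · exact (AddSubgroup.closure _).nsmul_mem (AddSubgroup.subset_closure (Set.mem_range_self (2 : Fin 4))) _
    · intro i
      fin_cases i
      · simpa [tab31, Fin.sum_univ_four] using hπ 0
      · simpa [tab31, Fin.sum_univ_four] using hπ 1
      · simpa [tab31, Fin.sum_univ_four] using hπ 2
      · simpa [tab31, Fin.sum_univ_four] using hzp
    · intro i j
      have z1 := fun r => (hzr r).1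
      have z2 := fun r => (hzr r).2
      fin_cases i <;> fin_cases j <;> simp [tab31, Fin.sum_univ_four, z1, z2, hB]

end Pool.NR
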