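import Pool.Agent.H64.NR.Gen

/-!
Project NR: module X5I.
-/

namespace Pool.NR

universe u

theorem x5i (_h1 : FILStmt.{u}) : X5IStmt.{u} := by
  intro p hp R _ hc hn h1 h2
  have hfin := FIL.finite_of_card (p := p) hc
  have hp2 := hp.out.two_le
  have i1 := FIL.dd_idl (p := p) (FIL.idl_top (R := R))
  have i2 := FIL.dd_idl (p := p) i1
  have ct : Nat.card (⊤ : AddSubgroup R) = p ^ (3 + 1) := by rw [AddSubgroup.card_top, hc]
  have hb : Dd p (Dd p (Dd p (⊤ : AddSubgroup R))) = ⊥ :=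
    FIL.dd_bot_of_card hc hn i2 (Or.inl h2)
  have hne : Dd p (⊤ : AddSubgroup R) ≠ ⊤ := by
    intro h0
    rw [h0, ct] at h1
    have := Nat.pow_right_injective hp2 h1
    omega
  obtain ⟨x, -, hx⟩ := SetLike.exists_of_lt (lt_top_iff_ne_top.2 hne)
  have l1 := FIL.lin1 (le_top : Dd p (⊤ : AddSubgroup R) ≤ ⊤) (by rw [ct, h1]; ring)
    (AddSubgroup.mem_top x) hx
  have hX : (⊤ : AddSubgroup R) ≤ AddSubgroup.closure {x} ⊔ Dd p ⊤ := by
    intro s hs
    obtain ⟨a, ha⟩ := l1 s hs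
    rw [← sub_add_cancel s (a.val • x), add_comm]
    exact add_mem (AddSubgroup.mem_sup_left ((AddSubgroup.closure {x}).nsmul_mem
      (AddSubgroup.subset_closure rfl) _)) (AddSubgroup.mem_sup_right ha)
  -- Phi is generated by `p x` and `x x` modulo `Phi2`
  set v := p • x with hv
  set w := x * x with hw
  have hvΦ : v ∈ Dd p (⊤ : AddSubgroup R) := FIL.dd_smul (AddSubgroup.mem_top _)
  have hwΦ : w ∈ Dd p (⊤ : AddSubgroup R) := FIL.dd_mul (AddSubgroup.mem_top _) _
  have hY : Dd p (⊤ : AddSubgroup R) ≤ AddSubgroup.closure {v, w} ⊔ Dd p (Dd p ⊤) := by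
    refine (FIL.gen hX hX).trans (sup_le_sup_right (AddSubgroup.closure_mono ?_) _)
    rintro z ⟨y, rfl, rfl | ⟨x', rfl, rfl | rfl⟩⟩ <;> simp [hv, hw]
  -- Phi2
  have hvw : x * v = p • w := by rw [hv, hw, mul_smul_comm]
  have hwv : v * x = p • w := by rw [hv, hw, smul_mul_assoc]
  have hwx : w * x = x * w := by rw [hw, mul_assoc]
  have hne2 : Dd p (Dd p (⊤ : AddSubgroup R)) ≠ ⊥ := by
    intro h0
    rw [h0, AddSubgroup.card_bot] at h2
    omega
  obtain ⟨⟨z, hz⟩, hz0'⟩ := AddSubgroup.ne_bot_iff_exists_ne_zero.1 hne2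
  have hz0 : z ≠ 0 := fun h => hz0' (Subtype.ext h)
  have l2 := FIL.lin1 (bot_le : (⊥ : AddSubgroup R) ≤ Dd p (Dd p ⊤))
    (by rw [AddSubgroup.card_bot, h2, mul_one]) hz (by rwa [AddSubgroup.mem_bot])
  simp only [AddSubgroup.mem_bot, sub_eq_zero] at l2
  have hzp : p • z = 0 := by
    have : p • z ∈ Dd p (Dd p (Dd p (⊤ : AddSubgroup R))) := FIL.dd_smul hz
    rwa [hb, AddSubgroup.mem_bot] at this
  have hzr : ∀ r : R, r * z = 0 ∧ z * r = 0 := by
    intro r
    have h1 : r * z ∈ Dd p (Dd p (Dd p (⊤ : AddSubgroup R))) := FIL.dd_mul hz r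
    have h2 : z * r ∈ Dd p (Dd p (Dd p (⊤ : AddSubgroup R))) := FIL.dd_mul' hz r
    rw [hb, AddSubgroup.mem_bot] at h1 h2
    exact ⟨h1, h2⟩
  obtain ⟨α, hα⟩ := l2 (x * w) (FIL.dd_mul hwΦ _)
  obtain ⟨β, hβ⟩ := l2 (p • w) (FIL.dd_smul hwΦ)
  obtain ⟨γ, hγ⟩ := l2 (p • v) (FIL.dd_smul hvΦ)
  refine ⟨α, β, γ, ?_, ![x, v, w, z], ?_, ?_, ?_⟩
  · by_contra hcon
    push Not at hcon
    obtain ⟨rfl, rfl, rfl⟩ := hcon
    simp only [ZMod.val_zero, zero_smul] at hα hβ hγ
    have h3 := FIL.gen hX hY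
    rw [hb, sup_bot_eq] at h3
    apply hne2
    rw [eq_bot_iff]
    refine h3.trans ((AddSubgroup.closure_le _).2 ?_)
    rintro t ⟨y, hy, ht⟩
    show t ∈ (⊥ : AddSubgroup R)
    rw [AddSubgroup.mem_bot]
    rcases hy with rfl | hy
    · rcases ht with rfl | ⟨x', rfl, rfl | rfl⟩
      · exact hγ
      · rw [hvw, hβ]
      · rw [hwv, hβ]
    · rw [Set.mem_singleton_iff] at hy
      subst hy
      rcases ht with rfl | ⟨x', rfl, rfl | rfl⟩
      · exact hβ
      · exact hα
      · rw [hwx, hα]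
  · rw [eq_top_iff]
    intro s hs
    have g0 : x ∈ AddSubgroup.closure (Set.range ![x, v, w, z]) :=
      AddSubgroup.subset_closure (Set.mem_range_self (0 : Fin 4))
    have g1 : v ∈ AddSubgroup.closure (Set.range ![x, v, w, z]) :=
      AddSubgroup.subset_closure (Set.mem_range_self (1 : Fin 4))
    have g2 : w ∈ AddSubgroup.closure (Set.range ![x, v, w, z]) :=
      AddSubgroup.subset_closure (Set.mem_range_self (2 : Fin 4))
    have g3 : z ∈ AddSubgroup.closure (Set.range ![x, v, w, z]) :=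
      AddSubgroup.subset_closure (Set.mem_range_self (3 : Fin 4))
    have e2 : Dd p (Dd p (⊤ : AddSubgroup R)) ≤ AddSubgroup.closure (Set.range ![x, v, w, z]) := by
      intro t ht
      obtain ⟨a, ha⟩ := l2 t ht
      rw [ha]
      exact (AddSubgroup.closure _).nsmul_mem g3 _
    have e1 : Dd p (⊤ : AddSubgroup R) ≤ AddSubgroup.closure (Set.range ![x, v, w, z]) := by
      refine hY.trans (sup_le ((AddSubgroup.closure_le _).2 ?_) e2)
      rintro t (rfl | ht)
      · exact g1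
      · rw [Set.mem_singleton_iff] at ht
        subst ht
        exact g2
    have e0 : (⊤ : AddSubgroup R) ≤ AddSubgroup.closure (Set.range ![x, v, w, z]) := by
      refine hX.trans (sup_le ((AddSubgroup.closure_le _).2 ?_) e1)
      rintro t rfl
      exact g0
    exact e0 hs
  · intro i
    fin_cases i
    · have h1p : (1 : ZMod p).val = 1 := ZMod.val_one'' hp.out.ne_one
      simp [tab5i, Fin.sum_univ_four, hv]
    · simpa [tab5i, Fin.sum_univ_four] using hγ
    · simpa [tab5i, Fin.sum_univ_four] using hβ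
    · simpa [tab5i, Fin.sum_univ_four] using hzp
  · have z1 := fun r => (hzr r).1
    have z2 := fun r => (hzr r).2
    have hvv : v * v = 0 := by
      rw [hv, smul_mul_assoc, ← hv, hvw, hβ, smul_comm, hzp, smul_zero]
    have hvw' : v * w = 0 := by
      rw [hv, smul_mul_assoc, hα, smul_comm, hzp, smul_zero]
    have hwv' : w * v = 0 := by
      rw [hv, mul_smul_comm, hwx, hα, smul_comm, hzp, smul_zero]
    have hww : w * w = 0 := by
      conv_lhs => rw [hw]
      rw [mul_assoc, hα, mul_smul_comm, z1, smul_zero]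
    rw [hβ] at hvw hwv
    rw [hα] at hwx
    intro i j
    fin_cases i <;> fin_cases j <;>
      simp [tab5i, Fin.sum_univ_four, z1, z2, hvv, hvw', hwv', hww, hvw, hwv, hwx, hα, ← hw]

end Pool.NR
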