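import Pool.Agent.H64.NR.Gen

/-!
Project NR: module X5J.
-/

namespace Pool.NR

universe u

namespace X5J

variable {p : ℕ} {R : Type u} [NonUnitalRing R]

/-- a section generated by one element -/
theorem one {T S : AddSubgroup R} {y : R} (hS : S ≤ AddSubgroup.closure {y} ⊔ T) :
    ∀ s ∈ S, ∃ n : ℤ, s - n • y ∈ T := by
  intro s hs
  obtain ⟨c, hc, d, hd, rfl⟩ := AddSubgroup.mem_sup.1 (hS hs)
  rw [AddSubgroup.mem_closure_singleton] at hc
  obtain ⟨n, rfl⟩ := hc
  exact ⟨n, by rwa [add_sub_cancel_left]⟩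

theorem one' {T S : AddSubgroup R} {y : R} (hS : ∀ s ∈ S, ∃ a : ZMod p, s - a.val • y ∈ T) :
    S ≤ AddSubgroup.closure {y} ⊔ T := by
  intro s hs
  obtain ⟨a, ha⟩ := hS s hs
  rw [← sub_add_cancel s (a.val • y), add_comm]
  exact add_mem (AddSubgroup.mem_sup_left ((AddSubgroup.closure {y}).nsmul_mem
    (AddSubgroup.subset_closure rfl) _)) (AddSubgroup.mem_sup_right ha)

end X5J

open X5J in
theorem x5j (_h1 : FILStmt.{u}) : X5JStmt.{u} := by
  intro p hp R _ hc hn h1 h2
  have hfin := FIL.finite_of_card (p := p) hc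
  have hp2 := hp.out.two_le
  have i1 := FIL.dd_idl (p := p) (FIL.idl_top (R := R))
  have i2 := FIL.dd_idl (p := p) i1
  have i3 := FIL.dd_idl (p := p) i2
  have ct : Nat.card (⊤ : AddSubgroup R) = p ^ (3 + 1) := by rw [AddSubgroup.card_top, hc]
  have hb : Dd p (Dd p (Dd p (Dd p (⊤ : AddSubgroup R)))) = ⊥ := by
    obtain ⟨j, hj, h3⟩ := FIL.card_dd_lt hc hn i2 (k := 1) h2
    refine FIL.dd_bot_of_card hc hn i3 ?_
    interval_cases j
    · right; simpa using h3
    · left; simpa using h3
  have hne : Dd p (⊤ : AddSubgroup R) ≠ ⊤ := by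
    intro h0
    rw [h0, ct] at h1
    have := Nat.pow_right_injective hp2 h1
    omega
  obtain ⟨x, -, hx⟩ := SetLike.exists_of_lt (lt_top_iff_ne_top.2 hne)
  have l1 := FIL.lin1 (le_top : Dd p (⊤ : AddSubgroup R) ≤ ⊤) (by rw [ct, h1]; ring)
    (AddSubgroup.mem_top x) hx
  have hX : (⊤ : AddSubgroup R) ≤ AddSubgroup.closure {x} ⊔ Dd p ⊤ := one' l1
  have hxx : x * x ∈ Dd p (⊤ : AddSubgroup R) := FIL.dd_mul (AddSubgroup.mem_top _) _
  have hpx : p • x ∈ Dd p (⊤ : AddSubgroup R) := FIL.dd_smul (AddSubgroup.mem_top _)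
  have b4 : ∀ t ∈ Dd p (Dd p (Dd p (Dd p (⊤ : AddSubgroup R)))), t = 0 := by
    intro t ht
    rwa [hb, AddSubgroup.mem_bot] at ht
  by_cases hcase : x * x ∈ Dd p (Dd p (⊤ : AddSubgroup R))
  · -- `R` is generated by `x` additively
    right
    have hY1 : Dd p (⊤ : AddSubgroup R) ≤ AddSubgroup.closure {p • x} ⊔ Dd p (Dd p ⊤) := by
      refine (FIL.gen hX hX).trans (sup_le ((AddSubgroup.closure_le _).2 ?_) le_sup_right)
      rintro z ⟨y, rfl, rfl | ⟨x', rfl, rfl | rfl⟩⟩
      · exact AddSubgroup.mem_sup_left (AddSubgroup.subset_closure rfl)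
      · exact AddSubgroup.mem_sup_right hcase
      · exact AddSubgroup.mem_sup_right hcase
    have c1 : x * (p • x) = p • (x * x) := mul_smul_comm _ _ _
    have c2 : (p • x) * x = p • (x * x) := smul_mul_assoc _ _ _
    have d1 : p • (x * x) ∈ Dd p (Dd p (Dd p (⊤ : AddSubgroup R))) := FIL.dd_smul hcase
    have hY2 : Dd p (Dd p (⊤ : AddSubgroup R)) ≤
        AddSubgroup.closure {p • (p • x)} ⊔ Dd p (Dd p (Dd p ⊤)) := by
      refine (FIL.gen hX hY1).trans (sup_le ((AddSubgroup.closure_le _).2 ?_) le_sup_right)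
      rintro z ⟨y, rfl, rfl | ⟨x', rfl, rfl | rfl⟩⟩
      · exact AddSubgroup.mem_sup_left (AddSubgroup.subset_closure rfl)
      · rw [c1]; exact AddSubgroup.mem_sup_right d1
      · rw [c2]; exact AddSubgroup.mem_sup_right d1
    have c3 : x * (p • (p • x)) = p • (p • (x * x)) := by rw [mul_smul_comm, c1]
    have c4 : (p • (p • x)) * x = p • (p • (x * x)) := by rw [smul_mul_assoc, c2]
    have c5 : p • (p • (x * x)) = 0 := b4 _ (FIL.dd_smul d1)
    have hY3 : Dd p (Dd p (Dd p (⊤ : AddSubgroup R))) ≤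
        AddSubgroup.closure {p • (p • (p • x))} ⊔ Dd p (Dd p (Dd p (Dd p ⊤))) := by
      refine (FIL.gen hX hY2).trans (sup_le ((AddSubgroup.closure_le _).2 ?_) le_sup_right)
      rintro z ⟨y, rfl, rfl | ⟨x', rfl, rfl | rfl⟩⟩
      · exact AddSubgroup.mem_sup_left (AddSubgroup.subset_closure rfl)
      · rw [c3, c5]; exact zero_mem _
      · rw [c4, c5]; exact zero_mem _
    have m2 : p • (p • x) ∈ Dd p (Dd p (⊤ : AddSubgroup R)) := FIL.dd_smul hpx
    have m3 : p • (p • (p • x)) ∈ Dd p (Dd p (Dd p (⊤ : AddSubgroup R))) := FIL.dd_smul m2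
    have m4 : p • (p • (p • (p • x))) = 0 := b4 _ (FIL.dd_smul m3)
    obtain ⟨c, hc'⟩ := FIL.red (FIL.dd_smul m2) (one hY2 _ hcase)
    obtain ⟨d, hd'⟩ := FIL.red (FIL.dd_smul m3) (one hY3 _ hc')
    have hxx' : x * x = c.val • (p • (p • x)) + d.val • (p • (p • (p • x))) := by
      have := b4 _ hd'
      rw [sub_sub, sub_eq_zero] at this
      exact this
    have pxx : p • (x * x) = c.val • (p • (p • (p • x))) := by
      rw [hxx', smul_add, smul_comm p c.val, smul_comm p d.val, m4, smul_zero, add_zero]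
    refine ⟨c, d, ![x, p • x, p • (p • x), p • (p • (p • x))], ?_, ?_, ?_⟩
    · set G := AddSubgroup.closure (Set.range ![x, p • x, p • (p • x), p • (p • (p • x))]) with hG
      have g0 : x ∈ G := AddSubgroup.subset_closure (Set.mem_range_self (0 : Fin 4))
      have g1 : p • x ∈ G := AddSubgroup.subset_closure (Set.mem_range_self (1 : Fin 4))
      have g2 : p • (p • x) ∈ G := AddSubgroup.subset_closure (Set.mem_range_self (2 : Fin 4))
      have g3 : p • (p • (p • x)) ∈ G := AddSubgroup.subset_closure (Set.mem_range_self (3 : Fin 4))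
      have cl : ∀ t ∈ G, AddSubgroup.closure {t} ≤ G := fun t ht =>
        (AddSubgroup.closure_le _).2 (by rintro _ rfl; exact ht)
      rw [eq_top_iff]
      refine hX.trans (sup_le (cl _ g0) (hY1.trans (sup_le (cl _ g1) (hY2.trans (sup_le (cl _ g2)
        (hY3.trans (sup_le (cl _ g3) ?_)))))))
      rw [hb]; exact bot_le
    · intro i
      have v1 : (1 : ZMod p).val = 1 := ZMod.val_one'' hp.out.ne_one
      fin_cases i <;> simp [tab5b, Fin.sum_univ_four, m4]
    · intro i j
      have e3 : x * (p • (p • (p • x))) = 0 := by rw [mul_smul_comm, c3, c5, smul_zero]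
      have e4 : (p • (p • (p • x))) * x = 0 := by rw [smul_mul_assoc, c4, c5, smul_zero]
      have e5 : x * (p • (p • x)) = 0 := by rw [c3, c5]
      have e6 : (p • (p • x)) * x = 0 := by rw [c4, c5]
      have e7 : (p • x) * (p • x) = 0 := by rw [smul_mul_assoc, c1, c5]
      fin_cases i <;> fin_cases j
      · simpa [tab5b, Fin.sum_univ_four] using hxx'
      · simpa [tab5b, Fin.sum_univ_four] using c1.trans pxx
      · simpa [tab5b, Fin.sum_univ_four] using e5
      · simpa [tab5b, Fin.sum_univ_four] using e3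
      · simpa [tab5b, Fin.sum_univ_four] using c2.trans pxx
      · simpa [tab5b, Fin.sum_univ_four] using e7
      · have : (p • x) * (p • (p • x)) = 0 := by rw [smul_mul_assoc, e5, smul_zero]
        simpa [tab5b, Fin.sum_univ_four] using this
      · have : (p • x) * (p • (p • (p • x))) = 0 := by rw [smul_mul_assoc, e3, smul_zero]
        simpa [tab5b, Fin.sum_univ_four] using this
      · simpa [tab5b, Fin.sum_univ_four] using e6
      · have : (p • (p • x)) * (p • x) = 0 := by rw [mul_smul_comm, e6, smul_zero]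
        simpa [tab5b, Fin.sum_univ_four] using this
      · have : (p • (p • x)) * (p • (p • x)) = 0 := by
          rw [mul_smul_comm, mul_smul_comm, e6, smul_zero, smul_zero]
        simpa [tab5b, Fin.sum_univ_four] using this
      · have : (p • (p • x)) * (p • (p • (p • x))) = 0 := by
          rw [mul_smul_comm, mul_smul_comm, mul_smul_comm, e6, smul_zero, smul_zero, smul_zero]
        simpa [tab5b, Fin.sum_univ_four] using this
      · simpa [tab5b, Fin.sum_univ_four] using e4
      · have : (p • (p • (p • x))) * (p • x) = 0 := by rw [mul_smul_comm, e4, smul_zero]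
        simpa [tab5b, Fin.sum_univ_four] using this
      · have : (p • (p • (p • x))) * (p • (p • x)) = 0 := by
          rw [mul_smul_comm, mul_smul_comm, e4, smul_zero, smul_zero]
        simpa [tab5b, Fin.sum_univ_four] using this
      · have : (p • (p • (p • x))) * (p • (p • (p • x))) = 0 := by
          rw [mul_smul_comm, mul_smul_comm, mul_smul_comm, e4, smul_zero, smul_zero, smul_zero]
        simpa [tab5b, Fin.sum_univ_four] using this
  · -- `R` is generated by `x, x ^ 2, x ^ 3, x ^ 4`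
    left
    have l2 := FIL.lin1 (FIL.dd_le_self i1) (by rw [h1, h2]; ring) hxx hcase
    have hY1 : Dd p (⊤ : AddSubgroup R) ≤ AddSubgroup.closure {x * x} ⊔ Dd p (Dd p ⊤) := one' l2
    obtain ⟨l, hl⟩ := l2 _ hpx
    -- p x = l x^2 + f
    set f := p • x - l.val • (x * x) with hf
    have hpf : p • x = l.val • (x * x) + f := by rw [hf]; abel
    have px2 : p • (x * x) = l.val • (x * (x * x)) + x * f := by
      rw [← mul_smul_comm, hpf, mul_add, mul_smul_comm]
    have hxf : x * f ∈ Dd p (Dd p (Dd p (⊤ : AddSubgroup R))) := FIL.dd_mul hl _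
    have q3 : x * (x * x) ∈ AddSubgroup.closure {x * (x * x)} :=
      AddSubgroup.subset_closure (Set.mem_singleton _)
    have q4 : x * (x * (x * x)) ∈ AddSubgroup.closure {x * (x * (x * x))} :=
      AddSubgroup.subset_closure (Set.mem_singleton _)
    have hY2 : Dd p (Dd p (⊤ : AddSubgroup R)) ≤
        AddSubgroup.closure {x * (x * x)} ⊔ Dd p (Dd p (Dd p ⊤)) := by
      refine (FIL.gen hX hY1).trans (sup_le ((AddSubgroup.closure_le _).2 ?_) le_sup_right)
      rintro z ⟨y, rfl, rfl | ⟨x', rfl, rfl | rfl⟩⟩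
      · rw [px2]
        exact add_mem (AddSubgroup.mem_sup_left (AddSubgroup.nsmul_mem _ q3 _))
          (AddSubgroup.mem_sup_right hxf)
      · exact AddSubgroup.mem_sup_left q3
      · rw [mul_assoc]; exact AddSubgroup.mem_sup_left q3
    have px3 : p • (x * (x * x)) = l.val • (x * (x * (x * x))) := by
      rw [← mul_smul_comm, px2, mul_add, mul_smul_comm, b4 _ (FIL.dd_mul hxf x), add_zero]
    have hY3 : Dd p (Dd p (Dd p (⊤ : AddSubgroup R))) ≤
        AddSubgroup.closure {x * (x * (x * x))} ⊔ Dd p (Dd p (Dd p (Dd p ⊤))) := by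
      refine (FIL.gen hX hY2).trans (sup_le ((AddSubgroup.closure_le _).2 ?_) le_sup_right)
      rintro z ⟨y, rfl, rfl | ⟨x', rfl, rfl | rfl⟩⟩
      · rw [px3]
        exact AddSubgroup.mem_sup_left (AddSubgroup.nsmul_mem _ q4 _)
      · exact AddSubgroup.mem_sup_left q4
      · rw [mul_assoc, mul_assoc]; exact AddSubgroup.mem_sup_left q4
    have m2 : x * (x * x) ∈ Dd p (Dd p (⊤ : AddSubgroup R)) := FIL.dd_mul hxx _
    have m3 : x * (x * (x * x)) ∈ Dd p (Dd p (Dd p (⊤ : AddSubgroup R))) := FIL.dd_mul m2 _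
    have m4 : p • (x * (x * (x * x))) = 0 := b4 _ (FIL.dd_smul m3)
    have m5 : x * (x * (x * (x * x))) = 0 := b4 _ (FIL.dd_mul m3 _)
    obtain ⟨m, hm⟩ := FIL.red (FIL.dd_smul m2) (one hY2 _ hl)
    obtain ⟨n, hn'⟩ := FIL.red (FIL.dd_smul m3) (one hY3 _ hm)
    have hf' : f = m.val • (x * (x * x)) + n.val • (x * (x * (x * x))) := by
      have := b4 _ hn'
      rw [sub_sub, sub_eq_zero] at this
      exact this
    have xf : x * f = m.val • (x * (x * (x * x))) := by
      rw [hf', mul_add, mul_smul_comm, mul_smul_comm, m5, smul_zero, add_zero]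
    refine ⟨l, m, n, ![x, x * x, x * (x * x), x * (x * (x * x))], ?_, ?_, ?_⟩
    · set G := AddSubgroup.closure (Set.range ![x, x * x, x * (x * x), x * (x * (x * x))]) with hG
      have g0 : x ∈ G := AddSubgroup.subset_closure (Set.mem_range_self (0 : Fin 4))
      have g1 : x * x ∈ G := AddSubgroup.subset_closure (Set.mem_range_self (1 : Fin 4))
      have g2 : x * (x * x) ∈ G := AddSubgroup.subset_closure (Set.mem_range_self (2 : Fin 4))
      have g3 : x * (x * (x * x)) ∈ G := AddSubgroup.subset_closure (Set.mem_range_self (3 : Fin 4))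
      have cl : ∀ t ∈ G, AddSubgroup.closure {t} ≤ G := fun t ht =>
        (AddSubgroup.closure_le _).2 (by rintro _ rfl; exact ht)
      rw [eq_top_iff]
      refine hX.trans (sup_le (cl _ g0) (hY1.trans (sup_le (cl _ g1) (hY2.trans (sup_le (cl _ g2)
        (hY3.trans (sup_le (cl _ g3) ?_)))))))
      rw [hb]; exact bot_le
    · intro i
      fin_cases i
      · have := hpf
        rw [hf', ← add_assoc] at this
        simpa [tab5a, Fin.sum_univ_four] using this
      · have := px2
        rw [xf] at this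
        simpa [tab5a, Fin.sum_univ_four] using this
      · simpa [tab5a, Fin.sum_univ_four] using px3
      · simpa [tab5a, Fin.sum_univ_four] using m4
    · intro i j
      have e : ∀ s : R, x * (x * (x * (x * s))) = 0 := by
        intro s
        have h := b4 _ (FIL.dd_mul' m3 s)
        simpa only [mul_assoc] using h
      fin_cases i <;> fin_cases j <;> simp [tab5a, Fin.sum_univ_four, mul_assoc, e]

end Pool.NR
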