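import Pool.Agent.H64.NR.Gen

/-!
Project NR: module XC.
-/

namespace Pool.NR

universe u

theorem xc (_h1 : FILStmt.{u}) : XCStmt.{u} := by
  intro p hp R _ hc hn
  have hfin := FIL.finite_of_card (p := p) hc
  have hp2 := hp.out.two_le
  have i1 := FIL.dd_idl (p := p) (FIL.idl_top (R := R))
  have i2 := FIL.dd_idl (p := p) i1
  have ct : Nat.card (⊤ : AddSubgroup R) = p ^ (3 + 1) := by rw [AddSubgroup.card_top, hc]
  obtain ⟨k, hk, h⟩ := FIL.card_dd_lt hc hn FIL.idl_top ct
  interval_cases k
  · left; simpa using h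
  · right; left; simpa using h
  · right; right; left
    refine ⟨h, ?_⟩
    obtain ⟨j, hj, h'⟩ := FIL.card_dd_lt hc hn i1 (k := 1) h
    interval_cases j
    · left; simpa using h'
    · right; simpa using h'
  · right; right; right
    refine ⟨h, ?_⟩
    obtain ⟨j, hj, h'⟩ := FIL.card_dd_lt hc hn i1 (k := 2) h
    interval_cases j
    · exfalso
      have hb : Dd p (Dd p (⊤ : AddSubgroup R)) = ⊥ :=
        AddSubgroup.eq_bot_of_card_eq _ (by simpa using h')
      have hne : Dd p (⊤ : AddSubgroup R) ≠ ⊤ := by
        intro h0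
        rw [h0, ct] at h
        have := Nat.pow_right_injective hp2 h
        omega
      obtain ⟨x, -, hx⟩ := SetLike.exists_of_lt (lt_top_iff_ne_top.2 hne)
      have l1 := FIL.lin1 (le_top : Dd p (⊤ : AddSubgroup R) ≤ ⊤) (by rw [ct, h]; ring)
        (AddSubgroup.mem_top x) hx
      have hX : (⊤ : AddSubgroup R) ≤ AddSubgroup.closure {x} ⊔ Dd p ⊤ := by
        intro s hs
        obtain ⟨a, ha⟩ := l1 s hs
        rw [← sub_add_cancel s (a.val • x), add_comm]
        exact add_mem (AddSubgroup.mem_sup_left ((AddSubgroup.closure {x}).nsmul_mem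
          (AddSubgroup.subset_closure rfl) _)) (AddSubgroup.mem_sup_right ha)
      have hg := FIL.gen hX hX
      rw [hb, sup_bot_eq] at hg
      -- the group generated by `p x` and `x x` has at most `p ^ 2` elements
      have hpz : ∀ z ∈ Dd p (⊤ : AddSubgroup R), p • z = 0 := by
        intro z hz
        have : p • z ∈ Dd p (Dd p (⊤ : AddSubgroup R)) := FIL.dd_smul hz
        rwa [hb, AddSubgroup.mem_bot] at this
      let f : ZMod p × ZMod p → R := fun a => a.1.val • (p • x) + a.2.val • (x * x)
      have hf : ∀ z ∈ Dd p (⊤ : AddSubgroup R), ∃ a, z = f a := by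
        intro z hz
        refine AddSubgroup.closure_induction (p := fun z _ => ∃ a, z = f a) ?_ ?_ ?_ ?_ (hg hz)
        · rintro z ⟨y, rfl, rfl | ⟨x', rfl, rfl | rfl⟩⟩
          · refine ⟨(1, 0), ?_⟩
            simp [f, ZMod.val_one'' hp.out.ne_one]
          · refine ⟨(0, 1), ?_⟩
            simp [f, ZMod.val_one'' hp.out.ne_one]
          · refine ⟨(0, 1), ?_⟩
            simp [f, ZMod.val_one'' hp.out.ne_one]
        · exact ⟨0, by simp [f]⟩
        · rintro _ _ _ _ ⟨a, rfl⟩ ⟨b, rfl⟩
          refine ⟨a + b, ?_⟩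
          have e : ∀ (c d : ZMod p) (w : R), p • w = 0 → (c + d).val • w = c.val • w + d.val • w := by
            intro c d w hw
            rw [ZMod.val_add, ← add_smul]
            conv_rhs => rw [← Nat.mod_add_div (c.val + d.val) p]
            rw [add_smul, mul_comm p, mul_smul, hw, smul_zero, add_zero]
          simp only [f, Prod.fst_add, Prod.snd_add]
          rw [e _ _ _ (hpz _ (FIL.dd_smul (AddSubgroup.mem_top _))), e _ _ _ (hpz _ (FIL.dd_mul (AddSubgroup.mem_top _) _))]
          abel
        · rintro _ _ ⟨a, rfl⟩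
          refine ⟨-a, ?_⟩
          have e : ∀ (c : ZMod p) (w : R), p • w = 0 → (-c).val • w = -(c.val • w) := by
            intro c w hw
            rw [ZMod.neg_val]
            split_ifs with hc
            · simp [hc]
            · rw [eq_neg_iff_add_eq_zero, ← add_smul, Nat.sub_add_cancel (ZMod.val_lt c).le, hw]
          simp only [f, Prod.fst_neg, Prod.snd_neg]
          rw [e _ _ (hpz _ (FIL.dd_smul (AddSubgroup.mem_top _))), e _ _ (hpz _ (FIL.dd_mul (AddSubgroup.mem_top _) _))]
          abel
      choose! g hg' using hf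
      have hcard : Nat.card (Dd p (⊤ : AddSubgroup R)) ≤ Nat.card (ZMod p × ZMod p) := by
        refine Nat.card_le_card_of_injective (fun z => g z.1) ?_
        intro a b hab
        apply Subtype.ext
        rw [hg' a.1 a.2, hg' b.1 b.2]
        exact congrArg f hab
      rw [h, Nat.card_prod, Nat.card_zmod] at hcard
      have : p * p < p ^ 3 := by nlinarith [hp2, mul_self_nonneg p]
      omega
    · left; simpa using h'
    · right; exact h'

end Pool.NR
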